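import Pool.Agent.K6.H71.PS.Stm
import Pool.Agent.K6.H71.PT.Stm

set_option autoImplicit false
set_option linter.all false

open Polynomial IsDedekindDomain
open scoped Classical

namespace Pool.Agent.K6.H71.PT

open Pool.Agent.TH115.GD (rs ak Sep Comp CompInf)

theorem tate_conv {K F : Type} [Field K] [Field F] [Algebra K F] {p q : ℕ} {f : K[X]}
    {L : IntermediateField K (Sep F)}
    {k' : Type} [Field k'] [Algebra k'[X] F] [IsFractionRing k'[X] F]
    (h : Pool.Agent.K6.H71.PS.TateOver p q f L k') : TateOver p q f L k' := by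
  intro c hc hl hi n
  exact h c ⟨fun n => ⟨(hc.coc n).lc, (hc.coc n).mul⟩, hc.zero, hc.step⟩
    (fun n => ⟨(hl n).1, (hl n).2⟩)
    (fun τ hτ => by
      obtain ⟨m, Q, hQ, hm⟩ := hi τ hτ
      exact ⟨m, Q, ⟨hQ.zero, hQ.step⟩, hm⟩) n

theorem div_conv {K : Type} [Field K] {p q : ℕ} {f : K[X]} {M : Type} [Field M] [Algebra K M]
    (h : Pool.Agent.K6.H71.PS.Divisible p q f M) : Divisible p q f M := h

end Pool.Agent.K6.H71.PT
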