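import Pool.Agent.K6.H71.PT.Stm

/-!
# Branch curves, inert primes, coverings of the line: definitions

`p` is a prime, `k` a field, `k'` a separable closure of `k`, `K = k(t)`, `F = k'(t)`.
-/

set_option autoImplicit false

open Polynomial IsDedekindDomain
open scoped Classical

namespace Pool.Agent.K6.H71.PT

open Pool.Agent.TH115.GD (Sep Comp)

section curve

variable {k : Type} [Field k]

/-- The polynomial `f` in `x` over `k[t]` defines a smooth, absolutely irreducible affine plane curve
whose coordinate ring `R = k[t, x] / (f)` has no units besides the constants and no ideal classes of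
order `p` (if the `p`-th power of an ideal is principal, the ideal is principal); `f` is monic in `x`, of
degree prime to `p`, and its derivative with respect to `x` is not zero. -/
structure IsBranchCurve (p : ℕ) (f : k[X][X]) : Prop where
  monic : f.Monic
  coprime : p.Coprime f.natDegree
  irreducible : ∀ (k' : Type) [Field k'] [Algebra k k'],
    Irreducible (f.map (mapRingHom (algebraMap k k')))
  derivative_ne_zero : derivative f ≠ 0
  smooth : Ideal.span {f, derivative f, f.sum fun i a => C (derivative a) * X ^ i} = ⊤
  dedekind : IsDedekindDomain (AdjoinRoot f)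
  ideals : ∀ I : Ideal (AdjoinRoot f), (I ^ p).IsPrincipal → I.IsPrincipal
  units : ∀ u : (AdjoinRoot f)ˣ, ∃ c : k, (u : AdjoinRoot f) = algebraMap k (AdjoinRoot f) c

/-- All the prime factors `P` of `D` in `k[t]` are inert in the branch curve: `f` modulo `P`, a polynomial
in `x` over the field `k[t] / (P)`, is irreducible. -/
def IsInertProduct (f : k[X][X]) (D : k[X]) : Prop :=
  ∀ P : k[X], Irreducible P → P ∣ D → Irreducible (f.map (AdjoinRoot.mk P))

/-- The polynomial `D ^ n f(x / D, t)` in `x` over `K = k(t)`, where `n` is the degree of `f` in `x`. The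
surface `w ^ q = D ^ n f(x / D, t)` is the twist of `w ^ q = f(x, t)` by `D(t) ^ n`. -/
noncomputable def twist (K : Type) [Field K] [Algebra k[X] K] (f : k[X][X]) (D : k[X]) : K[X] :=
  (f.scaleRoots D).map (algebraMap k[X] K)

/-- The composition `h_0 ∘ h_1 ∘ ... ∘ h_{n-1}`, `h_i = e_i X ^ p + c_i`. -/
noncomputable def pcomp (p : ℕ) (e c : ℕ → k) : ℕ → k[X]
  | 0 => X
  | n + 1 => (pcomp p e c n).comp (C (e n) * X ^ p + C (c n))

/-- The inclusion of the constants. -/
noncomputable def cstk (k K Ω : Type) [Field k] [Field K] [Field Ω] [Algebra k[X] K] [Algebra K Ω] :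
    k →+* Ω := (algebraMap K Ω).comp ((algebraMap k[X] K).comp C)

/-- The polynomial `x ^ 3 + a x ^ 2 + b x + c`. -/
noncomputable def cubic (a b c : k) : k[X] := X ^ 3 + C a * X ^ 2 + C b * X + C c

/-- `s` is a root of `P(s) = t`. -/
def IsRootOf {K Ω : Type} [Field K] [Field Ω] [Algebra k[X] K] [Algebra K Ω] (P : k[X])
    (s : Ω) : Prop := P.eval₂ (cstk k K Ω) s = algebraMap K Ω (algebraMap k[X] K X)

/-- `L` is obtained from `K` by adjoining finitely many times a `p`-th root. -/
inductive IsRootTower (p : ℕ) (K : Type) {Ω : Type} [Field K] [Field Ω] [Algebra K Ω] :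
    IntermediateField K Ω → Prop
  | base : IsRootTower p K ⊥
  | step (L : IntermediateField K Ω) (δ : Ω) : IsRootTower p K L → δ ^ p ∈ L →
      IsRootTower p K (L ⊔ IntermediateField.adjoin K {δ})

end curve

section covers

variable {k : Type} [Field k] (k' K F : Type) [Field k'] [Algebra k k'] [Field K]
  [Field F] [Algebra k'[X] F] [IsFractionRing k'[X] F] [Algebra K F]

/-- The extension `N` of `K` is unramified at all the places of `F` which do not divide `E` and are not
the place at infinity: if `E` is not in the maximal ideal `v` then for all embeddings `ι` of `Sep F` in a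
separable closure of the completion of `F` at `v` the image of `N` is in the completion. -/
def UnramifiedOutside (E : k[X]) (N : IntermediateField K (Sep F)) : Prop :=
  ∀ v : HeightOneSpectrum k'[X], E.map (algebraMap k k') ∉ v.asIdeal →
    ∀ ι : Sep F →ₐ[F] Sep (Comp k'[X] F v), ∀ x ∈ N, ∃ y : Comp k'[X] F v,
      ι x = algebraMap (Comp k'[X] F v) (Sep (Comp k'[X] F v)) y

variable [Algebra k[X] K]

/-- For all the twists of `w ^ q = f(x, t)` by products `D` of a constant and of inert primes: the Tate
conjecture at `p` holds over `L`, and `J(L)` is divisible by `p`. -/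
def HoldsFor (p q : ℕ) (f : k[X][X]) (L : IntermediateField K (Sep F)) : Prop :=
  ∀ D : k[X], D ≠ 0 → IsInertProduct f D →
    TateOver p q (twist K f D) L k' ∧ Divisible p q (twist K f D) L

/-- All the subfields of the Galois extensions of `p`-power degree which are unramified except above inert
primes and above infinity. -/
def AllCovers (p q : ℕ) (f : k[X][X]) : Prop :=
  ∀ (N : IntermediateField K (Sep F)) (m : ℕ) (E : k[X]), IsGalois K N → FiniteDimensional K N →
    Module.finrank K N = p ^ m → E ≠ 0 → IsInertProduct f E → UnramifiedOutside k' K F E N →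
    ∀ L : IntermediateField K (Sep F), L ≤ N → HoldsFor k' K F p q f L

/-- All the fields which are obtained from `K` by adjoining finitely many times a `p`-th root, and are
unramified except above inert primes and above infinity. -/
def AllRootTowers (p q : ℕ) (f : k[X][X]) : Prop :=
  ∀ (L : IntermediateField K (Sep F)) (E : k[X]), IsRootTower p K L → E ≠ 0 → IsInertProduct f E →
    UnramifiedOutside k' K F E L → HoldsFor k' K F p q f L

/-- The fields `K(s)` with `h_0 (h_1 (... h_{n-1}(s))) = t`, `h_i = e_i X ^ p + c_i`, if `f(x, β)` is
irreducible over `k` for the critical values `β = h_0 (h_1 (... h_{i-1}(c_i)))`, `i < n`, of this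
composition. -/
def AllCompositions (p q : ℕ) (f : k[X][X]) : Prop :=
  ∀ (e c : ℕ → k) (n : ℕ), (∀ i, e i ≠ 0) →
    (∀ i < n, Irreducible (f.map (evalRingHom ((pcomp p e c i).eval (c i))))) →
    ∀ s : Sep F, IsRootOf (K := K) (pcomp p e c n) s →
      HoldsFor k' K F p q f (IntermediateField.adjoin K {s})

end covers

end Pool.Agent.K6.H71.PT
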