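import Pool.Agent.K6.H71.PT.Tr
import Pool.Agent.K6.H71.PT.Defs

/-!
# Change of the base field: Galois extensions, ramification
-/

set_option autoImplicit false
set_option linter.all false

open Polynomial IsDedekindDomain
open scoped Classical

namespace Pool.Agent.K6.H71.PT

open Pool.Agent.TH115.GD (rs ak Sep Comp CompInf)

section gal

variable {K K₁ Ω : Type} [Field K] [Field K₁] [Field Ω] [Algebra K K₁] [Algebra K Ω] [Algebra K₁ Ω]
  [IsScalarTower K K₁ Ω] {p m : ℕ}

/-- The composite with `K₁`. -/
noncomputable def up (K₁ : Type) {K Ω : Type} [Field K] [Field K₁] [Field Ω] [Algebra K Ω]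
    [Algebra K₁ Ω] (L : IntermediateField K Ω) : IntermediateField K₁ Ω :=
  IntermediateField.adjoin K₁ (L : Set Ω)

theorem mem_up {L : IntermediateField K Ω} {x : Ω} (hx : x ∈ L) : x ∈ up K₁ L :=
  IntermediateField.subset_adjoin K₁ _ hx

theorem up_mono {L N : IntermediateField K Ω} (h : L ≤ N) : up K₁ L ≤ up K₁ N :=
  IntermediateField.adjoin.mono K₁ _ _ h

theorem up_gal [IsGalois K Ω] [IsGalois K₁ Ω] (hp : p.Prime) {N : IntermediateField K Ω}
    [IsGalois K N] [FiniteDimensional K N] (hN : Module.finrank K N = p ^ m) :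
    IsGalois K₁ (up K₁ N) ∧ FiniteDimensional K₁ (up K₁ N) ∧
      ∃ m' : ℕ, Module.finrank K₁ (up K₁ N) = p ^ m' := by
  -- finite
  have hfin : FiniteDimensional K₁ (up K₁ N) := by
    obtain ⟨α, hα⟩ := Field.exists_primitive_element K N
    have e1 : up K₁ N = IntermediateField.adjoin K₁ ({(α : Ω)} : Set Ω) := by
      apply le_antisymm
      · unfold up
        rw [IntermediateField.adjoin_le_iff]
        intro x hx
        have hx' : (⟨x, hx⟩ : N) ∈ IntermediateField.adjoin K {α} := by rw [hα]; trivial
        refine IntermediateField.adjoin_induction K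
          (p := fun (y : N) _ => (y : Ω) ∈ IntermediateField.adjoin K₁ ({(α : Ω)} : Set Ω))
          ?_ ?_ ?_ ?_ ?_ hx'
        · intro y hy
          rw [Set.mem_singleton_iff] at hy
          rw [hy]
          exact IntermediateField.mem_adjoin_simple_self K₁ _
        · intro y
          show algebraMap K Ω y ∈ _
          rw [IsScalarTower.algebraMap_apply K K₁ Ω]
          exact IntermediateField.algebraMap_mem _ _
        · rintro a b - - ha hb
          exact add_mem ha hb
        · rintro a - ha
          exact inv_mem ha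
        · rintro a b - - ha hb
          exact mul_mem ha hb
      · rw [IntermediateField.adjoin_le_iff, Set.singleton_subset_iff]
        exact mem_up α.2
    rw [e1]
    exact IntermediateField.finiteDimensional_adjoin (fun x _ => Algebra.IsIntegral.isIntegral x)
  -- the homomorphism of the Galois groups
  let ρ : (Ω ≃ₐ[K₁] Ω) →* (N ≃ₐ[K] N) :=
    (AlgEquiv.restrictNormalHom N).comp
      { toFun := fun τ => τ.restrictScalars K
        map_one' := rfl
        map_mul' := fun _ _ => rfl }
  have hρ : ∀ (τ : Ω ≃ₐ[K₁] Ω) (x : N), ((ρ τ x : N) : Ω) = τ x := fun τ x =>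
    AlgEquiv.restrictNormal_commutes (τ.restrictScalars K) N x
  have hker : ρ.ker = (up K₁ N).fixingSubgroup := by
    ext τ
    rw [MonoidHom.mem_ker, IntermediateField.mem_fixingSubgroup_iff]
    constructor
    · intro h x hx
      refine IntermediateField.adjoin_induction K₁ (p := fun x _ => τ x = x) ?_ ?_ ?_ ?_ ?_ hx
      · intro y hy
        have h1 := hρ τ ⟨y, hy⟩
        rw [h] at h1
        exact h1.symm
      · intro y
        exact τ.commutes y
      · rintro a b - - ha hb
        rw [map_add, ha, hb]
      · rintro a - ha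
        rw [map_inv₀, ha]
      · rintro a b - - ha hb
        rw [map_mul, ha, hb]
    · intro h
      apply AlgEquiv.ext
      intro x
      apply Subtype.ext
      rw [hρ]
      exact h x (mem_up x.2)
  have hnorm : (up K₁ N).fixingSubgroup.Normal := by
    rw [← hker]
    infer_instance
  haveI := hfin
  have hgal : IsGalois K₁ (up K₁ N) := by
    haveI : Normal K₁ (up K₁ N) := by
      rw [IntermediateField.normal_iff_forall_map_le']
      intro σ
      rintro _ ⟨x, hx, rfl⟩
      refine IntermediateField.adjoin_induction K₁ (p := fun x _ => σ x ∈ up K₁ N) ?_ ?_ ?_ ?_ ?_ hx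
      · intro y hy
        have h1 := hρ σ ⟨y, hy⟩
        show σ y ∈ up K₁ N
        rw [← h1]
        exact mem_up (ρ σ ⟨y, hy⟩).2
      · intro y
        show σ (algebraMap K₁ Ω y) ∈ up K₁ N
        rw [σ.commutes]
        exact IntermediateField.algebraMap_mem _ _
      · rintro a b - - ha hb
        rw [map_add]
        exact add_mem ha hb
      · rintro a - ha
        rw [map_inv₀]
        exact inv_mem ha
      · rintro a b - - ha hb
        rw [map_mul]
        exact mul_mem ha hb
    exact ⟨⟩
  refine ⟨hgal, hfin, ?_⟩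
  have h1 : Module.finrank K₁ (up K₁ N) = Nat.card ρ.range := by
    rw [IntermediateField.finrank_eq_fixingSubgroup_index, ← hker, Subgroup.index_ker]
  have h2 : Nat.card ρ.range ∣ p ^ m := by
    rw [← hN, ← IsGalois.card_aut_eq_finrank K N]
    exact Subgroup.card_subgroup_dvd_card _
  obtain ⟨m', -, hm'⟩ := (Nat.dvd_prime_pow hp).1 h2
  exact ⟨m', by rw [h1, hm']⟩

theorem up_root {L : IntermediateField K Ω} (h : IsRootTower p K L) :
    IsRootTower p K₁ (up K₁ L) := by
  induction h with
  | base =>
    have e1 : up K₁ (⊥ : IntermediateField K Ω) = ⊥ := by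
      rw [eq_bot_iff]
      unfold up
      rw [IntermediateField.adjoin_le_iff]
      intro x hx
      obtain ⟨y, rfl⟩ := IntermediateField.mem_bot.1 hx
      rw [IsScalarTower.algebraMap_apply K K₁ Ω]
      exact IntermediateField.algebraMap_mem _ _
    rw [e1]
    exact IsRootTower.base
  | step L δ _ hδ ih =>
    have e1 : up K₁ (L ⊔ IntermediateField.adjoin K {δ}) =
        up K₁ L ⊔ IntermediateField.adjoin K₁ {δ} := by
      apply le_antisymm
      · unfold up
        rw [IntermediateField.adjoin_le_iff]
        intro x hx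
        have hx2 : x ∈ IntermediateField.adjoin K ((L : Set Ω) ∪ {δ}) := by
          rw [IntermediateField.adjoin_union, IntermediateField.adjoin_self]
          exact hx
        refine IntermediateField.adjoin_induction K
          (p := fun x _ => x ∈ up K₁ L ⊔ IntermediateField.adjoin K₁ {δ}) ?_ ?_ ?_ ?_ ?_ hx2
        · rintro y (hy | hy)
          · exact (le_sup_left : up K₁ L ≤ _) (mem_up hy)
          · exact (le_sup_right : IntermediateField.adjoin K₁ {δ} ≤ _)
              (IntermediateField.subset_adjoin K₁ _ hy)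
        · intro y
          rw [IsScalarTower.algebraMap_apply K K₁ Ω]
          exact IntermediateField.algebraMap_mem _ _
        · rintro a b - - ha hb
          exact add_mem ha hb
        · rintro a - ha
          exact inv_mem ha
        · rintro a b - - ha hb
          exact mul_mem ha hb
      · refine sup_le (up_mono le_sup_left) ?_
        rw [IntermediateField.adjoin_le_iff, Set.singleton_subset_iff]
        exact mem_up ((le_sup_right : IntermediateField.adjoin K {δ} ≤ _)
          (IntermediateField.mem_adjoin_simple_self K δ))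
    rw [e1]
    exact IsRootTower.step _ δ ih (mem_up hδ)

end gal

section unr

variable {k k₁ k' K K₁ F : Type} [Field k] [Field k₁] [Field k'] [Algebra k k₁] [Algebra k k']
  [Algebra k₁ k'] [IsScalarTower k k₁ k'] [Field K] [Field K₁] [Field F] [Algebra k'[X] F]
  [IsFractionRing k'[X] F] [Algebra K K₁] [Algebra K F] [Algebra K₁ F] [IsScalarTower K K₁ F]

theorem up_unr {E : k[X]} {N : IntermediateField K (Sep F)} (h : UnramifiedOutside k' K F E N) :
    UnramifiedOutside k' K₁ F (E.map (algebraMap k k₁)) (up K₁ N) := by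
  intro v hv ι x hx
  rw [Polynomial.map_map, ← IsScalarTower.algebraMap_eq] at hv
  refine IntermediateField.adjoin_induction K₁ (p := fun x _ => ∃ y : Comp k'[X] F v,
    ι x = algebraMap (Comp k'[X] F v) (Sep (Comp k'[X] F v)) y) ?_ ?_ ?_ ?_ ?_ hx
  · intro y hy
    exact h v hv ι y hy
  · intro z
    refine ⟨algebraMap F _ (algebraMap K₁ F z), ?_⟩
    rw [IsScalarTower.algebraMap_apply K₁ F (Sep F), ι.commutes,
      IsScalarTower.algebraMap_apply F (Comp k'[X] F v) (Sep (Comp k'[X] F v))]
  · rintro a b - - ⟨a', ha⟩ ⟨b', hb⟩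
    exact ⟨a' + b', by rw [map_add, map_add, ha, hb]⟩
  · rintro a - ⟨a', ha⟩
    exact ⟨a'⁻¹, by rw [map_inv₀, map_inv₀, ha]⟩
  · rintro a b - - ⟨a', ha⟩ ⟨b', hb⟩
    exact ⟨a' * b', by rw [map_mul, map_mul, ha, hb]⟩

end unr

end Pool.Agent.K6.H71.PT
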