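import Pool.Agent.K6.H71.PT.Defs

/-!
# Fields without roots of unity: definitions

`k₁` is a field between `k` and its separable closure `k'`, for example the field of the `q`-th roots of
unity over `k`.
-/

set_option autoImplicit false
set_option linter.all false

open Polynomial IsDedekindDomain
open scoped Classical

namespace Pool.Agent.K6.H71.PT

open Pool.Agent.TH115.GD (rs ak Sep Comp CompInf)
open Pool.Agent.Y160.SL (Jac jm IsTM)

section stmt

variable {K F : Type} [Field K] [Field F] [Algebra K F] (p q : ℕ) (f : K[X])
  (L : IntermediateField K (Sep F))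

/-- There are no classes besides zero in `V_p Sel(J / F L)` which are fixed by the Galois group of `L`. If
`c` is a cocycle of `Gal(Sep F / F L)` with values in `T_p J` which is everywhere locally trivial, and the
class of `c` in `H ^ 1 (F L, V_p J)` is fixed by the Galois group of `L`, then `c n` is the coboundary of a
point of order `p ^ n` for all `n`. -/
def NoClasses (k' : Type) [Field k'] [Algebra k'[X] F] [IsFractionRing k'[X] F] : Prop :=
  ∀ c : ℕ → (Sep F ≃ₐ[F] Sep F) → Jac q f (Sep F), IsTCL p q f L c →
    (∀ n, LocallyTrivialL q f L k' (c n)) → IsInvL p q f L c →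
    ∀ n, ∃ R : Jac q f (Sep F), p ^ n • R = 0 ∧ IsCobL q f L (c n) R

end stmt

section defs

variable {k : Type} [Field k] (k' K F : Type) [Field k'] [Algebra k k'] [Field K] [Algebra k[X] K]
  [Field F] [Algebra k'[X] F] [IsFractionRing k'[X] F] [Algebra K F]

/-- The polynomial `f` over `k₁`. -/
noncomputable def overK (k₁ : Type) [Field k₁] [Algebra k k₁] (f : k[X][X]) : k₁[X][X] :=
  f.map (mapRingHom (algebraMap k k₁))

/-- The prime factors of `D` over `k₁` are inert in the branch curve. -/
def IsInertOver (k₁ : Type) [Field k₁] [Algebra k k₁] (f : k[X][X]) (D : k[X]) : Prop :=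
  IsInertProduct (overK k₁ f) (D.map (algebraMap k k₁))

/-- For all the twists of `w ^ q = f(x, t)` by polynomials `D` over `k` which are products of inert primes
over `k₁`: the Tate conjecture at `p` holds over `L`, and there are no classes besides zero. -/
def HoldsOver (k₁ : Type) [Field k₁] [Algebra k k₁] (p q : ℕ) (f : k[X][X])
    (L : IntermediateField K (Sep F)) : Prop :=
  ∀ D : k[X], D ≠ 0 → IsInertOver k₁ f D →
    TateOver p q (twist K f D) L k' ∧ NoClasses p q (twist K f D) L k'

/-- All the subfields of the Galois extensions of `p`-power degree which are unramified except above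
primes which are inert over `k₁` and above infinity. -/
def CoversOver (k₁ : Type) [Field k₁] [Algebra k k₁] (p q : ℕ) (f : k[X][X]) : Prop :=
  ∀ (N : IntermediateField K (Sep F)) (m : ℕ) (E : k[X]), IsGalois K N → FiniteDimensional K N →
    Module.finrank K N = p ^ m → E ≠ 0 → IsInertOver k₁ f E → UnramifiedOutside k' K F E N →
    ∀ L : IntermediateField K (Sep F), L ≤ N → HoldsOver k' K F k₁ p q f L

/-- All the fields which are obtained from `K` by adjoining finitely many times a `p`-th root, and are
unramified except above primes which are inert over `k₁` and above infinity. -/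
def RootTowersOver (k₁ : Type) [Field k₁] [Algebra k k₁] (p q : ℕ) (f : k[X][X]) : Prop :=
  ∀ (L : IntermediateField K (Sep F)) (E : k[X]), IsRootTower p K L → E ≠ 0 → IsInertOver k₁ f E →
    UnramifiedOutside k' K F E L → HoldsOver k' K F k₁ p q f L

/-- The fields `K(s)` with `h_0 (h_1 (... h_{n-1}(s))) = t`, `h_i = e_i X ^ p + c_i`, if `f(x, β)` is
irreducible over `k₁` for the critical values `β = h_0 (h_1 (... h_{i-1}(c_i)))`, `i < n`, of this
composition. -/
def CompositionsOver (k₁ : Type) [Field k₁] [Algebra k k₁] (p q : ℕ) (f : k[X][X]) : Prop :=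
  ∀ (e c : ℕ → k) (n : ℕ), (∀ i, e i ≠ 0) →
    (∀ i < n, Irreducible ((overK k₁ f).map
      (evalRingHom (algebraMap k k₁ ((pcomp p e c i).eval (c i)))))) →
    ∀ s : Sep F, IsRootOf (K := K) (pcomp p e c n) s →
      HoldsOver k' K F k₁ p q f (IntermediateField.adjoin K {s})

end defs

end Pool.Agent.K6.H71.PT
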