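import Pool.Agent.K6.H71.PT.Low
import Pool.Agent.Y160.SL.Conv
import Pool.Agent.Y160.SQ.JI

/-!
# Change of the base field: transport
-/

set_option autoImplicit false
set_option linter.all false

open Polynomial IsDedekindDomain
open scoped Classical

namespace Pool.Agent.K6.H71.PT

open Pool.Agent.TH115.GD (rs ak Sep Comp CompInf)
open Pool.Agent.Y160.SL (Jac jm IsTM CoordRing mapRing picMap)

section tr

variable (q : ℕ)

/-- Equal polynomials have the same Picard groups. -/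
noncomputable def tr {E : Type} [Field E] {g g' : E[X]} (h : g = g') :
    Additive (CommRing.Pic (CoordRing q g)) ≃+ Additive (CommRing.Pic (CoordRing q g')) := by
  subst h
  exact AddEquiv.refl _

theorem tr_map {E E' : Type} [Field E] [Field E'] {φ ψ : E →+* E'} (hφ : φ = ψ) {g g₁ : E[X]}
    {g' g₁' : E'[X]} (h : g = g₁) (h' : g' = g₁') (e : g.map φ = g') (e₁ : g₁.map ψ = g₁')
    (x : Additive (CommRing.Pic (CoordRing q g))) :
    picMap (mapRing q ψ g₁ g₁' e₁) (tr q h x) = tr q h' (picMap (mapRing q φ g g' e) x) := by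
  subst hφ h h'
  rfl

variable {K K₁ Ω Ω' : Type} [Field K] [Field K₁] [Field Ω] [Field Ω'] [Algebra K K₁]
  [Algebra K Ω] [Algebra K₁ Ω] [IsScalarTower K K₁ Ω] [Algebra K Ω'] [Algebra K₁ Ω']
  [IsScalarTower K K₁ Ω'] (f : K[X])

theorem map_eq : f.map (algebraMap K Ω) = (f.map (algebraMap K K₁)).map (algebraMap K₁ Ω) := by
  rw [Polynomial.map_map, ← IsScalarTower.algebraMap_eq]

/-- The points over `Ω` do not depend on the ground field. -/
noncomputable def jt (K₁ Ω : Type) [Field K₁] [Field Ω] [Algebra K K₁]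
    [Algebra K Ω] [Algebra K₁ Ω] [IsScalarTower K K₁ Ω] :
    Jac q f Ω ≃+ Jac q (f.map (algebraMap K K₁)) Ω := tr q (map_eq f)

theorem jt_jm {φ : Ω →ₐ[K] Ω'} {ψ : Ω →ₐ[K₁] Ω'} (h : (φ : Ω →+* Ω') = (ψ : Ω →+* Ω'))
    (x : Jac q f Ω) :
    jm q (f.map (algebraMap K K₁)) ψ (jt q f K₁ Ω x) = jt q f K₁ Ω' (jm q f φ x) :=
  tr_map q h _ _ _ _ x

end tr

section desc

variable {K K₁ F : Type} [Field K] [Field K₁] [Field F] [Algebra K K₁] [Algebra K F] [Algebra K₁ F]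
  [IsScalarTower K K₁ F] {p q : ℕ} {f : K[X]} {L : IntermediateField K (Sep F)}
  {L₁ : IntermediateField K₁ (Sep F)} {k' : Type} [Field k'] [Algebra k'[X] F]
  [IsFractionRing k'[X] F]

theorem over_iff (hL : ∀ x ∈ L, x ∈ L₁)
    (hL₁ : L₁ ≤ IntermediateField.adjoin K₁ (L : Set (Sep F))) (σ : Sep F ≃ₐ[F] Sep F) :
    Over L₁ σ ↔ Over L σ := by
  refine ⟨fun h x hx => h x (hL x hx), fun h x hx => ?_⟩
  refine IntermediateField.adjoin_induction K₁ (p := fun x _ => σ x = x) ?_ ?_ ?_ ?_ ?_ (hL₁ hx)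
  · intro y hy
    exact h y hy
  · intro y
    rw [IsScalarTower.algebraMap_apply K₁ F (Sep F), σ.commutes]
  · rintro a b - - ha hb
    rw [map_add, ha, hb]
  · rintro a - ha
    rw [map_inv₀, ha]
  · rintro a b - - ha hb
    rw [map_mul, ha, hb]

theorem loc_tr (hov : ∀ σ : Sep F ≃ₐ[F] Sep F, Over L₁ σ ↔ Over L σ) (E Ω' : Type) [Field E]
    [Field Ω'] [Algebra K E] [Algebra K₁ E] [IsScalarTower K K₁ E] [Algebra E Ω'] [Algebra K Ω']
    [Algebra K₁ Ω'] [IsScalarTower K K₁ Ω']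
    [Algebra F Ω'] [IsScalarTower K E Ω'] [IsScalarTower K F Ω'] [IsScalarTower K₁ E Ω']
    [IsScalarTower K₁ F Ω'] {c : (Sep F ≃ₐ[F] Sep F) → Jac q f (Sep F)}
    (h : LocTrivL q f L E Ω' c) :
    LocTrivL q (f.map (algebraMap K K₁)) L₁ E Ω' (fun σ => jt q f K₁ (Sep F) (c σ)) := by
  intro ι
  obtain ⟨P, hP⟩ := h ι
  refine ⟨jt q f K₁ Ω' P, fun τ σ hσ hτ => ?_⟩
  rw [jt_jm q f (φ := ι.restrictScalars K) (ψ := ι.restrictScalars K₁) rfl,
    hP τ σ ((hov σ).1 hσ) hτ, map_sub, jt_jm q f (φ := rs K τ) (ψ := rs K₁ τ) rfl]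

/-- If the Tate conjecture holds over `L₁` and the points are divisible by `p` then there are no
classes over `L`. -/
theorem tate_desc (hL : ∀ x ∈ L, x ∈ L₁)
    (hL₁ : L₁ ≤ IntermediateField.adjoin K₁ (L : Set (Sep F)))
    (hT : TateOver p q (f.map (algebraMap K K₁)) L₁ k')
    (hD : Divisible p q (f.map (algebraMap K K₁)) L₁) : NoClasses p q f L k' := by
  intro c hc hl hi n
  have hov := over_iff hL hL₁
  have hA : IsTCL p q (f.map (algebraMap K K₁)) L₁ (fun n σ => jt q f K₁ (Sep F) (c n σ)) := by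
    refine ⟨fun m => ⟨fun σ hσ => ?_, fun σ τ hσ hτ => ?_⟩, fun σ hσ => ?_, fun m σ hσ => ?_⟩
    · obtain ⟨O, hO, h3, h4⟩ := (hc.coc m).lc σ ((hov σ).1 hσ)
      exact ⟨O, hO, h3, fun τ hτ hτ' => by rw [h4 τ hτ ((hov τ).1 hτ')]⟩
    · rw [(hc.coc m).mul σ τ ((hov σ).1 hσ) ((hov τ).1 hτ), map_add,
        jt_jm q f (φ := rs K σ) (ψ := rs K₁ σ) rfl]
    · rw [hc.zero σ ((hov σ).1 hσ), map_zero]
    · rw [← map_nsmul, hc.step m σ ((hov σ).1 hσ)]
  have hB : ∀ n, LocallyTrivialL q (f.map (algebraMap K K₁)) L₁ k'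
      (fun σ => jt q f K₁ (Sep F) (c n σ)) := by
    intro m
    refine ⟨fun v => ?_, ?_⟩
    · haveI : IsScalarTower K K₁ (Comp k'[X] F v) := IsScalarTower.of_algebraMap_eq fun x => by
        rw [IsScalarTower.algebraMap_apply K F (Comp k'[X] F v),
          IsScalarTower.algebraMap_apply K₁ F (Comp k'[X] F v),
          IsScalarTower.algebraMap_apply K K₁ F]
      exact loc_tr hov _ _ ((hl m).1 v)
    · haveI : IsScalarTower K K₁ (CompInf k' F) := IsScalarTower.of_algebraMap_eq fun x => by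
        rw [IsScalarTower.algebraMap_apply K F (CompInf k' F),
          IsScalarTower.algebraMap_apply K₁ F (CompInf k' F),
          IsScalarTower.algebraMap_apply K K₁ F]
      exact loc_tr hov _ _ (hl m).2
  have hC : IsInvL p q (f.map (algebraMap K K₁)) L₁ (fun n σ => jt q f K₁ (Sep F) (c n σ)) := by
    intro τ hτ
    obtain ⟨m, Q, hQ, h3⟩ := hi (τ.restrictScalars K) (fun x hx => hτ x (hL x hx))
    refine ⟨m, fun n => jt q f K₁ (Sep F) (Q n), ⟨?_, fun n => ?_⟩, fun n σ σ' hσ hσ' h => ?_⟩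
    · rw [hQ.zero, map_zero]
    · rw [← map_nsmul, hQ.step]
    · have h4 := h3 n σ σ' ((hov σ).1 hσ) ((hov σ').1 hσ') h
      rw [jt_jm q f (φ := ak (τ.restrictScalars K)) (ψ := ak τ) rfl,
        jt_jm q f (φ := rs K σ) (ψ := rs K₁ σ) rfl, ← map_sub, ← map_sub, ← map_nsmul, h4]
  obtain ⟨P, R, h1, h2⟩ := hT _ hA hB hC n
  -- the points are divisible
  have hdiv : ∀ m : ℕ, ∀ x : Jac q (f.map (algebraMap K K₁)) L₁,
      ∃ y : Jac q (f.map (algebraMap K K₁)) L₁, p ^ m • y = x := by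
    intro m
    induction m with
    | zero => intro x; exact ⟨x, by rw [pow_zero, one_smul]⟩
    | succ m ih =>
      intro x
      obtain ⟨y, hy⟩ := ih x
      obtain ⟨z, hz⟩ := hD y
      exact ⟨z, by rw [pow_succ, mul_smul, hz, hy]⟩
  obtain ⟨y, hy⟩ := hdiv n P
  refine ⟨(jt q f K₁ (Sep F)).symm (R - jm q (f.map (algebraMap K K₁)) L₁.val y), ?_, ?_⟩
  · apply (jt q f K₁ (Sep F)).injective
    rw [map_nsmul, AddEquiv.apply_symm_apply, smul_sub, h1, ← map_nsmul, hy, sub_self, map_zero]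
  · intro σ hσ
    have hσ₁ := (hov σ).2 hσ
    have e1 : jt q f K₁ (Sep F) (c n σ) =
        jm q (f.map (algebraMap K K₁)) (rs K₁ σ) R - R := h2 σ hσ₁
    have e2 : jm q (f.map (algebraMap K K₁)) (rs K₁ σ)
        (jm q (f.map (algebraMap K K₁)) L₁.val y) = jm q (f.map (algebraMap K K₁)) L₁.val y := by
      have e0 : (rs K₁ σ).comp L₁.val = L₁.val := AlgHom.ext fun x => hσ₁ x x.2
      have e3 := Pool.Agent.Y160.SQ.jm_jm (ℓ := q) (f := f.map (algebraMap K K₁)) L₁.val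
        (rs K₁ σ) y
      rw [e0] at e3
      exact e3
    apply (jt q f K₁ (Sep F)).injective
    rw [map_sub, ← jt_jm q f (φ := rs K σ) (ψ := rs K₁ σ) rfl, AddEquiv.apply_symm_apply,
      map_sub, e2, e1]
    abel

theorem tate_of_no (h : NoClasses p q f L k') : TateOver p q f L k' := by
  intro c hc hl hi n
  obtain ⟨R, h1, h2⟩ := h c hc hl hi n
  exact ⟨0, R, by rw [map_zero, h1], h2⟩

end desc

end Pool.Agent.K6.H71.PT
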